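import Mathlib

/-!
# Nonlinear three-point patterns in thick Cantor sets (MP_4ff6b6_an, Q1)

Every Cantor set `K ⊂ ℝ` of Newhouse thickness `> 1` contains, for every `C¹` function `f` with
`f 0 = 0` and `f' 0 > 0`, a pattern `x - t, x, x + f t` with `t > 0`.
-/

set_option autoImplicit false

namespace Pool.Agent.Results.MP_4ff6b6_an.NonlinearPattern

open Set Filter Topology

/-- `(l, r)` is a bounded gap of `K`: the nonempty bounded open interval `(l, r)` is a connected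
component of the complement of `K`. -/
def Gap (K : Set ℝ) (l r : ℝ) : Prop :=
  l < r ∧ ∃ x ∈ Kᶜ, connectedComponentIn Kᶜ x = Ioo l r

/-- `[r, v]` is the bridge at the right endpoint `r` of the bounded gap `(l, r)`: `v` is the left
endpoint of the nearest bounded gap to the right of `r` of length at least `r - l`, or
`v = max K` if there is no such gap. -/
def RightBridge (K : Set ℝ) (l r v : ℝ) : Prop :=
  (∃ w, Gap K v w ∧ r ≤ v ∧ r - l ≤ w - v ∧
      ∀ l' r', Gap K l' r' → r ≤ l' → r - l ≤ r' - l' → v ≤ l') ∨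
    ((∀ l' r', Gap K l' r' → r ≤ l' → r' - l' < r - l) ∧ IsGreatest K v)

/-- `[v, l]` is the bridge at the left endpoint `l` of the bounded gap `(l, r)`: `v` is the right
endpoint of the nearest bounded gap to the left of `l` of length at least `r - l`, or
`v = min K` if there is no such gap. -/
def LeftBridge (K : Set ℝ) (l r v : ℝ) : Prop :=
  (∃ w, Gap K w v ∧ v ≤ l ∧ r - l ≤ v - w ∧
      ∀ l' r', Gap K l' r' → r' ≤ l → r - l ≤ r' - l' → r' ≤ v) ∨
    ((∀ l' r', Gap K l' r' → r' ≤ l → r' - l' < r - l) ∧ IsLeast K v)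

/-- The Newhouse thickness of `K`: the infimum, over all endpoints of bounded gaps, of the length
of the bridge divided by the length of the gap. -/
noncomputable def thickness (K : Set ℝ) : ℝ :=
  sInf {t | ∃ l r v, Gap K l r ∧
    ((RightBridge K l r v ∧ t = (v - r) / (r - l)) ∨
      (LeftBridge K l r v ∧ t = (l - v) / (r - l)))}

/-- A Cantor set: nonempty, compact, perfect and totally disconnected. -/
def IsCantor (K : Set ℝ) : Prop :=
  K.Nonempty ∧ IsCompact K ∧ Perfect K ∧ IsTotallyDisconnected K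

/-- Gaps described by their endpoints. -/
def G (K : Set ℝ) (l r : ℝ) : Prop := l ∈ K ∧ r ∈ K ∧ l < r ∧ ∀ x ∈ K, x ≤ l ∨ r ≤ x

lemma gap_iff (K : Set ℝ) (l r : ℝ) : Gap K l r ↔ G K l r := by
  constructor
  · rintro ⟨hlr, x, hx, hc⟩
    have hsub : Ioo l r ⊆ Kᶜ := hc ▸ connectedComponentIn_subset _ _
    have hxm : x ∈ Ioo l r := hc ▸ mem_connectedComponentIn hx
    refine ⟨?_, ?_, hlr, ?_⟩
    · by_contra hl
      have h1 : Ico l r ⊆ Kᶜ := by
        intro y hy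
        rcases eq_or_lt_of_le hy.1 with h | h
        · rw [← h]; exact hl
        · exact hsub ⟨h, hy.2⟩
      have h2 := isPreconnected_Ico.subset_connectedComponentIn
        (show x ∈ Ico l r from ⟨hxm.1.le, hxm.2⟩) h1
      rw [hc] at h2
      exact lt_irrefl _ (h2 ⟨le_refl l, hlr⟩).1
    · by_contra hl
      have h1 : Ioc l r ⊆ Kᶜ := by
        intro y hy
        rcases eq_or_lt_of_le hy.2 with h | h
        · rw [h]; exact hl
        · exact hsub ⟨hy.1, h⟩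
      have h2 := isPreconnected_Ioc.subset_connectedComponentIn
        (show x ∈ Ioc l r from ⟨hxm.1, hxm.2.le⟩) h1
      rw [hc] at h2
      exact lt_irrefl _ (h2 ⟨hlr, le_refl r⟩).2
    · intro y hy
      by_contra h
      push Not at h
      exact hsub ⟨h.1, h.2⟩ hy
  · rintro ⟨hl, hr, hlr, h⟩
    have hsub : Ioo l r ⊆ Kᶜ := by
      intro y hy hyK
      rcases h y hyK with h | h
      · exact absurd hy.1 (not_lt.2 h)
      · exact absurd hy.2 (not_lt.2 h)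
    have hx : (l + r) / 2 ∈ Ioo l r := ⟨by linarith, by linarith⟩
    refine ⟨hlr, (l + r) / 2, hsub hx, ?_⟩
    apply Subset.antisymm
    · intro y hy
      have hpc : IsPreconnected (connectedComponentIn Kᶜ ((l + r) / 2)) :=
        isPreconnected_connectedComponentIn
      have hmem : (l + r) / 2 ∈ connectedComponentIn Kᶜ ((l + r) / 2) :=
        mem_connectedComponentIn (hsub hx)
      have hoc := hpc.ordConnected
      have hcs := connectedComponentIn_subset Kᶜ ((l + r) / 2)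
      constructor
      · by_contra hyl
        exact hcs (hoc.out hy hmem ⟨not_lt.1 hyl, hx.1.le⟩) hl
      · by_contra hyr
        exact hcs (hoc.out hmem hy ⟨hx.2.le, not_lt.1 hyr⟩) hr
    · exact isPreconnected_Ioo.subset_connectedComponentIn hx hsub

/-- The set of gaps of length at least `η` is compact. -/
lemma gapSet_compact {K : Set ℝ} (hK : IsCompact K) (η : ℝ) :
    IsCompact {p : ℝ × ℝ | p.1 ∈ K ∧ p.2 ∈ K ∧ η ≤ p.2 - p.1 ∧ ∀ x ∈ K, x ≤ p.1 ∨ p.2 ≤ x} := by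
  have h1 : {p : ℝ × ℝ | p.1 ∈ K ∧ p.2 ∈ K ∧ η ≤ p.2 - p.1 ∧ ∀ x ∈ K, x ≤ p.1 ∨ p.2 ≤ x} =
      (K ×ˢ K) ∩ ({p : ℝ × ℝ | η ≤ p.2 - p.1} ∩
        ⋂ x ∈ K, ({p : ℝ × ℝ | x ≤ p.1} ∪ {p : ℝ × ℝ | p.2 ≤ x})) := by
    ext p
    simp only [mem_ofPred_eq, mem_inter_iff, mem_prod, mem_iInter, mem_union]
    tauto
  rw [h1]
  apply (hK.prod hK).inter_right
  apply IsClosed.inter
  · exact isClosed_le continuous_const (continuous_snd.sub continuous_fst)
  · apply isClosed_biInter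
    intro x _
    exact (isClosed_le continuous_const continuous_fst).union
      (isClosed_le continuous_snd continuous_const)

/-- Around a point of the hull that is not in `K` there is a gap. -/
lemma gap_around {K : Set ℝ} (hK : IsCompact K) {a b y : ℝ} (ha : a ∈ K) (hb : b ∈ K)
    (hay : a < y) (hyb : y < b) (hy : y ∉ K) :
    ∃ l r, G K l r ∧ l < y ∧ y < r ∧ a ≤ l ∧ r ≤ b := by
  have hc1 : IsCompact (K ∩ Iic y) := hK.inter_right isClosed_Iic
  have hc2 : IsCompact (K ∩ Ici y) := hK.inter_right isClosed_Ici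
  obtain ⟨l, hl⟩ := hc1.exists_isGreatest ⟨a, ha, hay.le⟩
  obtain ⟨r, hr⟩ := hc2.exists_isLeast ⟨b, hb, hyb.le⟩
  have hly : l < y := lt_of_le_of_ne hl.1.2 (fun h => hy (h ▸ hl.1.1))
  have hyr : y < r := lt_of_le_of_ne hr.1.2 (fun h => hy (h ▸ hr.1.1))
  refine ⟨l, r, ⟨hl.1.1, hr.1.1, hly.trans hyr, ?_⟩, hly, hyr, hl.2 ⟨ha, hay.le⟩,
    hr.2 ⟨hb, hyb.le⟩⟩
  intro x hx
  rcases le_total x y with h | h
  · exact Or.inl (hl.2 ⟨hx, h⟩)
  · exact Or.inr (hr.2 ⟨hx, h⟩)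

/-- Any two distinct points of a totally disconnected compact set are separated by a gap. -/
lemma gap_between {K : Set ℝ} (hK : IsCompact K) (ht : IsTotallyDisconnected K) {a b : ℝ}
    (ha : a ∈ K) (hb : b ∈ K) (hab : a < b) : ∃ l r, G K l r ∧ a ≤ l ∧ r ≤ b := by
  have : ∃ y ∈ Icc a b, y ∉ K := by
    by_contra h
    push Not at h
    have := ht (Icc a b) (fun y hy => h y hy) isPreconnected_Icc
    exact hab.ne (this (left_mem_Icc.2 hab.le) (right_mem_Icc.2 hab.le))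
  obtain ⟨y, hy, hyK⟩ := this
  have h1 : a < y := lt_of_le_of_ne hy.1 (fun h => hyK (h ▸ ha))
  have h2 : y < b := lt_of_le_of_ne hy.2 (fun h => hyK (h ▸ hb))
  obtain ⟨l, r, hg, _, _, h3, h4⟩ := gap_around hK ha hb h1 h2 hyK
  exact ⟨l, r, hg, h3, h4⟩

/-- Distinct gaps are at distance at least `τ` times the smaller length. -/
def Thick (K : Set ℝ) (τ : ℝ) : Prop :=
  ∀ l r l' r', G K l r → G K l' r' → r ≤ l' → r - l ≤ r' - l' → τ * (r - l) ≤ l' - r

/-- The mirror image of `Thick`. -/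
def ThickL (K : Set ℝ) (τ : ℝ) : Prop :=
  ∀ l r l' r', G K l r → G K l' r' → r ≤ l' → r' - l' ≤ r - l → τ * (r' - l') ≤ l' - r

lemma thick_of_thickness {K : Set ℝ} (hK : IsCompact K) : Thick K (thickness K) := by
  intro l r l' r' hg hg' hrl hlen
  have hC : IsCompact ({p : ℝ × ℝ | p.1 ∈ K ∧ p.2 ∈ K ∧ r - l ≤ p.2 - p.1 ∧
      ∀ x ∈ K, x ≤ p.1 ∨ p.2 ≤ x} ∩ {p | r ≤ p.1}) :=
    (gapSet_compact hK _).inter_right (isClosed_le continuous_const continuous_fst)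
  obtain ⟨p, hp, hmin⟩ := hC.exists_isMinOn (f := fun p : ℝ × ℝ => p.1)
    ⟨(l', r'), ⟨hg'.1, hg'.2.1, hlen, hg'.2.2.2⟩, hrl⟩ continuous_fst.continuousOn
  obtain ⟨⟨hp1, hp2, hp3, hp4⟩, hp5⟩ := hp
  have hlr := hg.2.2.1
  have hpl : p.1 < p.2 := by linarith
  have hgp : Gap K p.1 p.2 := (gap_iff _ _ _).2 ⟨hp1, hp2, hpl, hp4⟩
  have hb : RightBridge K l r p.1 := by
    left
    refine ⟨p.2, hgp, hp5, hp3, ?_⟩
    intro l'' r'' h1 h2 h3
    have h1' := (gap_iff _ _ _).1 h1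
    exact hmin (show (l'', r'') ∈ _ from ⟨⟨h1'.1, h1'.2.1, h3, h1'.2.2.2⟩, h2⟩)
  have h1 : thickness K ≤ (p.1 - r) / (r - l) := by
    apply csInf_le
    · refine ⟨0, ?_⟩
      rintro t ⟨l, r, v, hg, ⟨hb, rfl⟩ | ⟨hb, rfl⟩⟩
      · have h0 := hg.1
        apply div_nonneg _ (by linarith)
        rcases hb with ⟨w, _, h, _⟩ | ⟨_, h⟩
        · linarith
        · have := h.2 ((gap_iff _ _ _).1 hg).2.1
          linarith
      · have h0 := hg.1
        apply div_nonneg _ (by linarith)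
        rcases hb with ⟨w, _, h, _⟩ | ⟨_, h⟩
        · linarith
        · have := h.2 ((gap_iff _ _ _).1 hg).1
          linarith
    · exact ⟨l, r, p.1, (gap_iff _ _ _).2 hg, Or.inl ⟨hb, rfl⟩⟩
  rw [le_div_iff₀ (by linarith)] at h1
  have h2 : p.1 ≤ l' := hmin (show (l', r') ∈ _ from ⟨⟨hg'.1, hg'.2.1, hlen, hg'.2.2.2⟩, hrl⟩)
  linarith

lemma thickL_of_thickness {K : Set ℝ} (hK : IsCompact K) : ThickL K (thickness K) := by
  intro l r l' r' hg hg' hrl hlen
  have hC : IsCompact ({p : ℝ × ℝ | p.1 ∈ K ∧ p.2 ∈ K ∧ r' - l' ≤ p.2 - p.1 ∧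
      ∀ x ∈ K, x ≤ p.1 ∨ p.2 ≤ x} ∩ {p | p.2 ≤ l'}) :=
    (gapSet_compact hK _).inter_right (isClosed_le continuous_snd continuous_const)
  obtain ⟨p, hp, hmax⟩ := hC.exists_isMaxOn (f := fun p : ℝ × ℝ => p.2)
    ⟨(l, r), ⟨hg.1, hg.2.1, hlen, hg.2.2.2⟩, hrl⟩ continuous_snd.continuousOn
  obtain ⟨⟨hp1, hp2, hp3, hp4⟩, hp5⟩ := hp
  have hlr := hg'.2.2.1
  have hpl : p.1 < p.2 := by linarith
  have hgp : Gap K p.1 p.2 := (gap_iff _ _ _).2 ⟨hp1, hp2, hpl, hp4⟩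
  have hb : LeftBridge K l' r' p.2 := by
    left
    refine ⟨p.1, hgp, hp5, hp3, ?_⟩
    intro l'' r'' h1 h2 h3
    have h1' := (gap_iff _ _ _).1 h1
    exact hmax (show (l'', r'') ∈ _ from ⟨⟨h1'.1, h1'.2.1, h3, h1'.2.2.2⟩, h2⟩)
  have h1 : thickness K ≤ (l' - p.2) / (r' - l') := by
    apply csInf_le
    · refine ⟨0, ?_⟩
      rintro t ⟨l, r, v, hg, ⟨hb, rfl⟩ | ⟨hb, rfl⟩⟩
      · have h0 := hg.1
        apply div_nonneg _ (by linarith)
        rcases hb with ⟨w, _, h, _⟩ | ⟨_, h⟩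
        · linarith
        · have := h.2 ((gap_iff _ _ _).1 hg).2.1
          linarith
      · have h0 := hg.1
        apply div_nonneg _ (by linarith)
        rcases hb with ⟨w, _, h, _⟩ | ⟨_, h⟩
        · linarith
        · have := h.2 ((gap_iff _ _ _).1 hg).1
          linarith
    · exact ⟨l', r', p.2, (gap_iff _ _ _).2 hg', Or.inr ⟨hb, rfl⟩⟩
  rw [le_div_iff₀ (by linarith)] at h1
  have h2 : r ≤ p.2 := hmax (show (l, r) ∈ _ from ⟨⟨hg.1, hg.2.1, hlen, hg.2.2.2⟩, hrl⟩)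
  linarith

/-- Small scale: arbitrarily close to the left end of a Cantor set there is a gap `(g0, g)` followed
by its bridge `[g, d]`, the whole being arbitrarily short. -/
lemma small_gap {K : Set ℝ} (hK : IsCompact K) (hne : K.Nonempty)
    (hp : ∀ x ∈ K, ∀ ε > 0, ∃ y ∈ K, y ≠ x ∧ |y - x| < ε) (ht : IsTotallyDisconnected K)
    {ε : ℝ} (hε : 0 < ε) :
    ∃ g0 g d w, G K g0 g ∧ G K d w ∧ g ≤ d ∧ g - g0 < w - d ∧
      (∀ l r, G K l r → g ≤ l → r ≤ d → r - l < g - g0) ∧ d - g0 < ε := by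
  obtain ⟨c, hc⟩ := hK.exists_isLeast hne
  have hnl : ∀ l r, G K l r → c < l := by
    intro l r hg
    rcases (hc.2 hg.1).eq_or_lt with h | h
    · exfalso
      obtain ⟨y, hy, hyc, hyd⟩ := hp c hc.1 (r - l) (by linarith [hg.2.2.1])
      have h1 := hc.2 hy
      have h2 : c < y := lt_of_le_of_ne h1 (Ne.symm hyc)
      rw [abs_of_pos (by linarith)] at hyd
      rcases hg.2.2.2 y hy with h3 | h3 <;> linarith
    · exact h
  obtain ⟨y, hy, hyc, hyd⟩ := hp c hc.1 ε hε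
  have hcy : c < y := lt_of_le_of_ne (hc.2 hy) (Ne.symm hyc)
  rw [abs_of_pos (by linarith)] at hyd
  obtain ⟨l, r, hg, hcl, hry⟩ := gap_between hK ht hc.1 hy hcy
  have hlr := hg.2.2.1
  -- leftmost gap of length at least `r - l`
  obtain ⟨p, ⟨hp1, hp2, hp3, hp4⟩, hpm⟩ := (gapSet_compact hK (r - l)).exists_isMinOn
    (f := fun p : ℝ × ℝ => p.1) ⟨(l, r), hg.1, hg.2.1, le_refl _, hg.2.2.2⟩
    continuous_fst.continuousOn
  have hgp : G K p.1 p.2 := ⟨hp1, hp2, by linarith, hp4⟩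
  have hpl : p.1 ≤ l := hpm (show (l, r) ∈ _ from ⟨hg.1, hg.2.1, le_refl _, hg.2.2.2⟩)
  have hsmall : ∀ l' r', G K l' r' → r' ≤ p.1 → r' - l' < r - l := by
    intro l' r' h1 h2
    by_contra h3
    have h4 : p.1 ≤ l' := hpm (show (l', r') ∈ _ from ⟨h1.1, h1.2.1, not_lt.1 h3, h1.2.2.2⟩)
    have := h1.2.2.1
    linarith
  -- a gap to the left of it
  obtain ⟨l2, r2, hg2, hcl2, hr2⟩ := gap_between hK ht hc.1 hp1 (hnl _ _ hgp)
  -- a longest one
  have hC : IsCompact ({q : ℝ × ℝ | q.1 ∈ K ∧ q.2 ∈ K ∧ r2 - l2 ≤ q.2 - q.1 ∧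
      ∀ x ∈ K, x ≤ q.1 ∨ q.2 ≤ x} ∩ {q | q.2 ≤ p.1}) :=
    (gapSet_compact hK _).inter_right (isClosed_le continuous_snd continuous_const)
  obtain ⟨q, ⟨⟨hq1, hq2, hq3, hq4⟩, hq5⟩, hqm⟩ := hC.exists_isMaxOn
    (f := fun p : ℝ × ℝ => p.2 - p.1)
    ⟨(l2, r2), ⟨hg2.1, hg2.2.1, le_refl _, hg2.2.2.2⟩, hr2⟩
    (continuous_snd.sub continuous_fst).continuousOn
  have hl2 := hg2.2.2.1
  -- the rightmost among the longest ones
  have hC' : IsCompact ({z : ℝ × ℝ | z.1 ∈ K ∧ z.2 ∈ K ∧ q.2 - q.1 ≤ z.2 - z.1 ∧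
      ∀ x ∈ K, x ≤ z.1 ∨ z.2 ≤ x} ∩ {q | q.2 ≤ p.1}) :=
    (gapSet_compact hK _).inter_right (isClosed_le continuous_snd continuous_const)
  obtain ⟨z, ⟨⟨hz1, hz2, hz3, hz4⟩, hz5⟩, hzm⟩ := hC'.exists_isMaxOn
    (f := fun p : ℝ × ℝ => p.1)
    ⟨q, ⟨hq1, hq2, le_refl _, hq4⟩, hq5⟩ continuous_fst.continuousOn
  have hgz : G K z.1 z.2 := ⟨hz1, hz2, by linarith, hz4⟩
  have hz5' : z.2 ≤ p.1 := hz5
  refine ⟨z.1, z.2, p.1, p.2, hgz, hgp, hz5, ?_, ?_, ?_⟩
  · have := hsmall _ _ hgz hz5'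
    linarith
  · intro l' r' h1 h2 h3
    by_contra h4
    push Not at h4
    have h5 : l' ≤ z.1 := hzm (show (l', r') ∈ _ from
      ⟨⟨h1.1, h1.2.1, by linarith, h1.2.2.2⟩, h3⟩)
    linarith [hgz.2.2.1]
  · have := hnl _ _ hgz
    have := hcy
    linarith

/-- Intermediate value theorem on `[a, b]`. -/
lemma ivt {u : ℝ → ℝ} (hu : Continuous u) {a b y : ℝ} (hab : a ≤ b) (h1 : u a ≤ y)
    (h2 : y ≤ u b) : ∃ t, a ≤ t ∧ t ≤ b ∧ u t = y := by
  obtain ⟨t, ht, rfl⟩ := intermediate_value_Icc hab hu.continuousOn ⟨h1, h2⟩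
  exact ⟨t, ht.1, ht.2, rfl⟩

/-- One step of the descent: two linked gaps can be replaced by two shorter linked gaps. -/
lemma step {K : Set ℝ} (hK : IsCompact K) {τ : ℝ} (hT : Thick K τ) (hTL : ThickL K τ)
    {g0 g d w : ℝ} (hg : G K g0 g) (hd : G K d w) (hlen : g - g0 < w - d)
    (hsm : ∀ l r, G K l r → g ≤ l → r ≤ d → r - l < g - g0)
    {u v : ℝ → ℝ} (hu : Continuous u) (hv : Continuous v) {T p P q Q : ℝ}
    (hu0 : u 0 = g0) (hv0 : v 0 = g0)
    (hu1 : ∀ s t, 0 ≤ s → s ≤ t → t ≤ T → p * (t - s) ≤ u t - u s ∧ u t - u s ≤ P * (t - s))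
    (hv1 : ∀ s t, 0 ≤ s → s ≤ t → t ≤ T → q * (t - s) ≤ v t - v s ∧ v t - v s ≤ Q * (t - s))
    (hp : 0 < p) (hq : 0 < q) (hpP : p ≤ P) (hqQ : q ≤ Q) (hPτ : P ≤ τ * p) (hQτ : Q ≤ τ * q)
    (hvT : d ≤ v T) (hτ : 0 < τ)
    (hno : ∀ t, 0 < t → t ≤ T → u t ∈ K → v t ∉ K)
    {a1 a2 b1 b2 : ℝ} (h0 : 0 ≤ b1) (h1 : b1 < a1) (h2 : a1 < b2) (h3 : b2 < a2) (h4 : a2 ≤ T)
    (hga : G K (u a1) (u a2)) (hgb : G K (v b1) (v b2)) (ha1 : g ≤ u a1) (ha2 : u a2 ≤ d)
    (hb1 : g ≤ v b1) (hb2 : v b2 ≤ d) :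
    (∃ b1' b2', 0 ≤ b1' ∧ b2' ≤ T ∧ G K (v b1') (v b2') ∧ g ≤ v b1' ∧ v b2' ≤ d ∧
        a1 ≤ b1' ∧ b1' ≤ a2 ∧ a2 ≤ b2' ∧ v b2' - v b1' < v b2 - v b1) ∨
      (∃ a1' a2', 0 ≤ a1' ∧ a2' ≤ T ∧ G K (u a1') (u a2') ∧ g ≤ u a1' ∧ u a2' ≤ d ∧
        a1' ≤ b1 ∧ b1 ≤ a2' ∧ a2' ≤ b2 ∧ u a2' - u a1' < u a2 - u a1) := by
  have hQ : 0 < Q := lt_of_lt_of_le hq hqQ
  have hP : 0 < P := lt_of_lt_of_le hp hpP
  have hgpos := hg.2.2.1
  have hb1pos : 0 < b1 := by
    rcases h0.eq_or_lt with h | h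
    · rw [← h, hv0] at hb1
      linarith
    · exact h
  rcases le_or_gt (a2 - a1) (b2 - b1) with hc | hc
  · left
    have e1 := (hv1 b1 b2 h0 (by linarith) (by linarith)).1
    have e2 := (hv1 b2 a2 (by linarith) h3.le h4)
    have e3 : Q * (a2 - b2) < Q * (b2 - b1) := by
      apply mul_lt_mul_of_pos_left _ hQ
      linarith
    have e4 : Q * (b2 - b1) ≤ τ * q * (b2 - b1) :=
      mul_le_mul_of_nonneg_right hQτ (by linarith)
    have e5 : τ * (q * (b2 - b1)) ≤ τ * (v b2 - v b1) := mul_le_mul_of_nonneg_left e1 hτ.le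
    have e6 : v a2 < v b2 + τ * (v b2 - v b1) := by nlinarith [e2.2]
    have e7 : τ * (v b2 - v b1) ≤ d - v b2 :=
      hT _ _ _ _ hgb hd hb2 (by have := hsm _ _ hgb hb1 hb2; linarith)
    have e8 : v b2 < v a2 := by
      have := mul_pos hq (show 0 < a2 - b2 by linarith)
      linarith [e2.1]
    have e9 : v a2 ∉ K := hno a2 (by linarith) h4 hga.2.1
    obtain ⟨l, r, hlr, hl1, hr1, hl2, hr2⟩ := gap_around hK hgb.2.1 hd.1 e8 (by linarith) e9
    have e10 : r - l < v b2 - v b1 := by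
      by_contra hcon
      push Not at hcon
      have := hT _ _ _ _ hgb hlr hl2 hcon
      linarith
    obtain ⟨b1', x1, x2, rfl⟩ := ivt hv h3.le hl2 hl1.le
    obtain ⟨b2', x3, x4, rfl⟩ := ivt hv h4 hr1.le (hr2.trans hvT)
    have := hgb.2.2.1
    exact ⟨b1', b2', by linarith, x4, hlr, by linarith, hr2, by linarith, x2, x3, e10⟩
  · right
    have e1 := (hu1 a1 a2 (by linarith) (by linarith) h4).1
    have e2 := (hu1 b1 a1 h0 h1.le (by linarith))
    have e3 : P * (a1 - b1) < P * (a2 - a1) := by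
      apply mul_lt_mul_of_pos_left _ hP
      linarith
    have e4 : P * (a2 - a1) ≤ τ * p * (a2 - a1) :=
      mul_le_mul_of_nonneg_right hPτ (by linarith)
    have e5 : τ * (p * (a2 - a1)) ≤ τ * (u a2 - u a1) := mul_le_mul_of_nonneg_left e1 hτ.le
    have e6 : u a1 - τ * (u a2 - u a1) < u b1 := by nlinarith [e2.2]
    have e7 : τ * (u a2 - u a1) ≤ u a1 - g :=
      hTL _ _ _ _ hg hga ha1 (by have := hsm _ _ hga ha1 ha2; linarith)
    have e8 : u b1 < u a1 := by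
      have := mul_pos hp (show 0 < a1 - b1 by linarith)
      linarith [e2.1]
    have e9 : u b1 ∉ K := fun h => hno b1 hb1pos (by linarith) h hgb.1
    obtain ⟨l, r, hlr, hl1, hr1, hl2, hr2⟩ := gap_around hK hg.2.1 hga.1
      (show g < u b1 by linarith) e8 e9
    have e10 : r - l < u a2 - u a1 := by
      by_contra hcon
      push Not at hcon
      have := hTL _ _ _ _ hlr hga hr2 hcon
      linarith
    obtain ⟨a1', x1, x2, rfl⟩ := ivt hu h0 (show u 0 ≤ l by rw [hu0]; linarith) hl1.le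
    obtain ⟨a2', x3, x4, rfl⟩ := ivt hu h1.le hr1.le hr2
    have := hga.2.2.1
    exact ⟨a1', a2', x1, by linarith, hlr, hl2, by linarith, x2, x3, by linarith, e10⟩

/-- A nonlinear gap lemma. -/
lemma core {K : Set ℝ} (hK : IsCompact K) {τ : ℝ} (hT : Thick K τ) (hTL : ThickL K τ)
    {g0 g d w : ℝ} (hg : G K g0 g) (hd : G K d w) (hgd : g ≤ d) (hlen : g - g0 < w - d)
    (hsm : ∀ l r, G K l r → g ≤ l → r ≤ d → r - l < g - g0)
    {u v : ℝ → ℝ} (hu : Continuous u) (hv : Continuous v) {T p P q Q : ℝ} (hT0 : 0 ≤ T)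
    (hu0 : u 0 = g0) (hv0 : v 0 = g0)
    (hu1 : ∀ s t, 0 ≤ s → s ≤ t → t ≤ T → p * (t - s) ≤ u t - u s ∧ u t - u s ≤ P * (t - s))
    (hv1 : ∀ s t, 0 ≤ s → s ≤ t → t ≤ T → q * (t - s) ≤ v t - v s ∧ v t - v s ≤ Q * (t - s))
    (hp : 0 < p) (hpP : p ≤ P) (hqQ : q ≤ Q) (hPq : P < q) (hPτ : P ≤ τ * p) (hQτ : Q ≤ τ * q)
    (hQp : Q < (1 + τ) * p) (huT : d ≤ u T) (hvT : d ≤ v T) (hτ : 0 < τ) :
    ∃ t, 0 < t ∧ u t ∈ K ∧ v t ∈ K := by
  by_contra hcon
  have hno : ∀ t, 0 < t → t ≤ T → u t ∈ K → v t ∉ K := by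
    intro t h1 h2 h3 h4
    exact hcon ⟨t, h1, h3, h4⟩
  have hq : 0 < q := by linarith
  have hgpos := hg.2.2.1
  -- the set of linked pairs of gaps
  let Λ : Set (ℝ × ℝ × ℝ × ℝ) := {z | 0 ≤ z.1 ∧ z.1 ≤ T ∧ 0 ≤ z.2.1 ∧ z.2.1 ≤ T ∧
    0 ≤ z.2.2.1 ∧ z.2.2.1 ≤ T ∧ 0 ≤ z.2.2.2 ∧ z.2.2.2 ≤ T ∧
    u z.1 ∈ K ∧ u z.2.1 ∈ K ∧ v z.2.2.1 ∈ K ∧ v z.2.2.2 ∈ K ∧
    (∀ x ∈ K, x ≤ u z.1 ∨ u z.2.1 ≤ x) ∧ (∀ x ∈ K, x ≤ v z.2.2.1 ∨ v z.2.2.2 ≤ x) ∧
    g ≤ u z.1 ∧ u z.2.1 ≤ d ∧ g ≤ v z.2.2.1 ∧ v z.2.2.2 ≤ d ∧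
    ((z.2.2.1 ≤ z.1 ∧ z.1 ≤ z.2.2.2 ∧ z.2.2.2 ≤ z.2.1) ∨
      (z.1 ≤ z.2.2.1 ∧ z.2.2.1 ≤ z.2.1 ∧ z.2.1 ≤ z.2.2.2))}
  have c1 : Continuous (fun z : ℝ × ℝ × ℝ × ℝ => z.1) := continuous_fst
  have c2 : Continuous (fun z : ℝ × ℝ × ℝ × ℝ => z.2.1) := by fun_prop
  have c3 : Continuous (fun z : ℝ × ℝ × ℝ × ℝ => z.2.2.1) := by fun_prop
  have c4 : Continuous (fun z : ℝ × ℝ × ℝ × ℝ => z.2.2.2) := by fun_prop
  have hKc := hK.isClosed
  have hΛc : IsClosed Λ := by
    have hcl : ∀ (a b : ℝ × ℝ × ℝ × ℝ → ℝ), Continuous a → Continuous b →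
        IsClosed {z | ∀ x ∈ K, x ≤ a z ∨ b z ≤ x} := by
      intro a b ha hb
      have : {z | ∀ x ∈ K, x ≤ a z ∨ b z ≤ x} = ⋂ x ∈ K, ({z | x ≤ a z} ∪ {z | b z ≤ x}) := by
        ext z
        simp only [mem_ofPred_eq, mem_iInter, mem_union]
      rw [this]
      exact isClosed_biInter fun x _ =>
        (isClosed_le continuous_const ha).union (isClosed_le hb continuous_const)
    refine (isClosed_le continuous_const c1).inter ((isClosed_le c1 continuous_const).inter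
      ((isClosed_le continuous_const c2).inter ((isClosed_le c2 continuous_const).inter
      ((isClosed_le continuous_const c3).inter ((isClosed_le c3 continuous_const).inter
      ((isClosed_le continuous_const c4).inter ((isClosed_le c4 continuous_const).inter
      ((hKc.preimage (hu.comp c1)).inter ((hKc.preimage (hu.comp c2)).inter
      ((hKc.preimage (hv.comp c3)).inter ((hKc.preimage (hv.comp c4)).inter
      ((hcl _ _ (hu.comp c1) (hu.comp c2)).inter ((hcl _ _ (hv.comp c3) (hv.comp c4)).inter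
      ((isClosed_le continuous_const (hu.comp c1)).inter
      ((isClosed_le (hu.comp c2) continuous_const).inter
      ((isClosed_le continuous_const (hv.comp c3)).inter
      ((isClosed_le (hv.comp c4) continuous_const).inter ?_)))))))))))))))))
    exact (((isClosed_le c3 c1).inter ((isClosed_le c1 c4).inter (isClosed_le c4 c2)))).union
      ((isClosed_le c1 c3).inter ((isClosed_le c3 c2).inter (isClosed_le c2 c4)))
  have hΛk : IsCompact Λ := by
    refine IsCompact.of_isClosed_subset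
      (isCompact_Icc (a := ((0 : ℝ), (0 : ℝ), (0 : ℝ), (0 : ℝ))) (b := (T, T, T, T))) hΛc ?_
    rintro z ⟨h1, h2, h3, h4, h5, h6, h7, h8, -⟩
    exact ⟨⟨h1, h3, h5, h7⟩, ⟨h2, h4, h6, h8⟩⟩
  -- it is not empty
  have hne : Λ.Nonempty := by
    obtain ⟨bd, y1, y2, y3⟩ := ivt hv hT0 (show v 0 ≤ d by rw [hv0]; linarith) hvT
    obtain ⟨ag, y4, y5, y6⟩ := ivt hu hT0 (show u 0 ≤ g by rw [hu0]; linarith) (hgd.trans huT)
    have hagpos : 0 < ag := by
      rcases y4.eq_or_lt with h | h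
      · rw [← h, hu0] at y6
        linarith
      · exact h
    have hbdpos : 0 < bd := by
      rcases y1.eq_or_lt with h | h
      · rw [← h, hv0] at y3
        linarith
      · exact h
    have hbr : τ * (g - g0) ≤ d - g := hT _ _ _ _ hg hd hgd hlen.le
    have e1 : v ag < v bd := by
      have f1 := (hv1 0 ag le_rfl y4 y5).2
      have f2 := (hu1 0 ag le_rfl y4 y5).1
      rw [hu0, y6] at f2
      rw [hv0] at f1
      rw [y3]
      have f3 : Q * (ag - 0) < (1 + τ) * p * (ag - 0) := by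
        apply mul_lt_mul_of_pos_right hQp
        linarith
      have f4 : (1 + τ) * (p * (ag - 0)) ≤ (1 + τ) * (g - g0) :=
        mul_le_mul_of_nonneg_left f2 (by linarith)
      nlinarith
    have e2 : ag < bd := by
      by_contra h
      push Not at h
      have := (hv1 bd ag y1 h y5).1
      have := mul_nonneg hq.le (show 0 ≤ ag - bd by linarith)
      linarith
    have e3 : u bd < d := by
      have f1 := (hu1 0 bd le_rfl y1 y2).2
      have f2 := (hv1 0 bd le_rfl y1 y2).1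
      rw [hu0] at f1
      rw [hv0, y3] at f2
      have f3 : P * (bd - 0) < q * (bd - 0) := by
        apply mul_lt_mul_of_pos_right hPq
        linarith
      linarith
    have e4 : g < u bd := by
      have f1 := (hu1 ag bd y4 e2.le y2).1
      have := mul_pos hp (show 0 < bd - ag by linarith)
      linarith
    have e5 : u bd ∉ K := fun h => hno bd hbdpos y2 h (y3 ▸ hd.1)
    obtain ⟨l, r, hlr, hl1, hr1, hl2, hr2⟩ := gap_around hK hg.2.1 hd.1 e4 e3 e5
    obtain ⟨a1, x1, x2, rfl⟩ := ivt hu e2.le (show u ag ≤ l by rw [y6]; exact hl2) hl1.le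
    obtain ⟨a2, x3, x4, rfl⟩ := ivt hu y2 hr1.le (hr2.trans huT)
    have ha1pos : 0 < a1 := by linarith
    have e6 : v a1 ∉ K := hno a1 ha1pos (by linarith) hlr.1
    have e7 : a1 < bd := lt_of_le_of_ne x2 (fun h => by rw [h] at hl1; exact lt_irrefl _ hl1)
    have e8 : v a1 < d := by
      have := (hv1 a1 bd (by linarith) x2 y2).1
      have := mul_pos hq (show 0 < bd - a1 by linarith)
      linarith
    have e9 : g < v a1 := by
      have f1 := (hu1 0 a1 le_rfl (by linarith) (by linarith)).2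
      have f2 := (hv1 0 a1 le_rfl (by linarith) (by linarith)).1
      rw [hu0] at f1
      rw [hv0] at f2
      have f3 : P * (a1 - 0) < q * (a1 - 0) := by
        apply mul_lt_mul_of_pos_right hPq
        linarith
      linarith
    obtain ⟨l', r', hlr', hl1', hr1', hl2', hr2'⟩ := gap_around hK hg.2.1 hd.1 e9 e8 e6
    obtain ⟨b1, x5, x6, rfl⟩ := ivt hv ha1pos.le (show v 0 ≤ l' by rw [hv0]; linarith) hl1'.le
    obtain ⟨b2, x7, x8, rfl⟩ := ivt hv e7.le hr1'.le (by rw [y3]; exact hr2')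
    refine ⟨(a1, a2, b1, b2), by simp only; linarith, by simp only; linarith,
      by simp only; linarith, x4, x5, by simp only; linarith, by simp only; linarith,
      by simp only; linarith, hlr.1, hlr.2.1, hlr'.1, hlr'.2.1, hlr.2.2.2, hlr'.2.2.2,
      hl2, hr2, hl2', hr2', Or.inl ⟨x6, x7, by simp only; linarith⟩⟩
  -- minimise the total length
  obtain ⟨⟨a1, a2, b1, b2⟩, hz, hmin⟩ := hΛk.exists_isMinOn
    (f := fun z : ℝ × ℝ × ℝ × ℝ => (u z.2.1 - u z.1) + (v z.2.2.2 - v z.2.2.1)) hne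
    (by fun_prop)
  obtain ⟨z1, z2, z3, z4, z5, z6, z7, z8, ka1, ka2, kb1, kb2, ga, gb, ja1, ja2, jb1, jb2, hlink⟩ := hz
  simp only at z1 z2 z3 z4 z5 z6 z7 z8 ka1 ka2 kb1 kb2 ga gb ja1 ja2 jb1 jb2 hlink
  have hupos : ∀ a, 0 ≤ a → g ≤ u a → 0 < a := by
    intro a h1 h2
    rcases h1.eq_or_lt with h | h
    · rw [← h, hu0] at h2
      linarith
    · exact h
  have hvpos : ∀ a, 0 ≤ a → g ≤ v a → 0 < a := by
    intro a h1 h2
    rcases h1.eq_or_lt with h | h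
    · rw [← h, hv0] at h2
      linarith
    · exact h
  have humono : ∀ s t, 0 ≤ s → s < t → t ≤ T → u s < u t := by
    intro s t h1 h2 h3
    have := (hu1 s t h1 h2.le h3).1
    have := mul_pos hp (show 0 < t - s by linarith)
    linarith
  have hvmono : ∀ s t, 0 ≤ s → s < t → t ≤ T → v s < v t := by
    intro s t h1 h2 h3
    have := (hv1 s t h1 h2.le h3).1
    have := mul_pos hq (show 0 < t - s by linarith)
    linarith
  have ha1pos := hupos a1 z1 ja1
  have hb1pos := hvpos b1 z5 jb1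
  rcases hlink with ⟨k1, k2, k3⟩ | ⟨k1, k2, k3⟩
  · have s1 : b1 < a1 := lt_of_le_of_ne k1 (fun h => hno a1 ha1pos z2 ka1 (h ▸ kb1))
    have s2 : a1 < b2 := lt_of_le_of_ne k2 (fun h => hno a1 ha1pos z2 ka1 (h ▸ kb2))
    have s3 : b2 < a2 := lt_of_le_of_ne k3 (fun h => hno a2 (by linarith) z4 ka2 (h ▸ kb2))
    have hga : G K (u a1) (u a2) := ⟨ka1, ka2, humono _ _ z1 (by linarith) z4, ga⟩
    have hgb : G K (v b1) (v b2) := ⟨kb1, kb2, hvmono _ _ z5 (by linarith) z8, gb⟩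
    rcases step hK hT hTL hg hd hlen hsm hu hv hu0 hv0 hu1 hv1 hp hq hpP hqQ hPτ hQτ hvT hτ hno
      z5 s1 s2 s3 z4 hga hgb ja1 ja2 jb1 jb2 with
      ⟨b1', b2', w1, w2, w3, w4, w5, w6, w7, w8, w9⟩ | ⟨a1', a2', w1, w2, w3, w4, w5, w6, w7, w8, w9⟩
    · have hmem : (a1, a2, b1', b2') ∈ Λ :=
        ⟨z1, z2, z3, z4, w1, by simp only; linarith, by simp only; linarith, w2, ka1, ka2, w3.1,
          w3.2.1, ga, w3.2.2.2, ja1, ja2, w4, w5, Or.inr ⟨w6, w7, w8⟩⟩
      have hq' := hmin hmem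
      simp only [mem_ofPred_eq] at hq'
      linarith
    · have hmem : (a1', a2', b1, b2) ∈ Λ :=
        ⟨w1, by simp only; linarith, by simp only; linarith, w2, z5, z6, z7, z8, w3.1, w3.2.1,
          kb1, kb2, w3.2.2.2, gb, w4, w5, jb1, jb2, Or.inr ⟨w6, w7, w8⟩⟩
      have hq' := hmin hmem
      simp only [mem_ofPred_eq] at hq'
      linarith
  · have s1 : a1 < b1 := lt_of_le_of_ne k1 (fun h => hno a1 ha1pos z2 ka1 (h.symm ▸ kb1))
    have s2 : b1 < a2 := lt_of_le_of_ne k2 (fun h => hno a2 (by linarith) z4 ka2 (h ▸ kb1))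
    have s3 : a2 < b2 := lt_of_le_of_ne k3 (fun h => hno a2 (by linarith) z4 ka2 (h.symm ▸ kb2))
    have hga : G K (u a1) (u a2) := ⟨ka1, ka2, humono _ _ z1 (by linarith) z4, ga⟩
    have hgb : G K (v b1) (v b2) := ⟨kb1, kb2, hvmono _ _ z5 (by linarith) z8, gb⟩
    rcases step hK hT hTL hg hd hlen hsm hv hu hv0 hu0 hv1 hu1 hq hp hqQ hpP hQτ hPτ huT hτ
      (fun t h1 h2 h3 h4 => hno t h1 h2 h4 h3)
      z1 s1 s2 s3 z8 hgb hga jb1 jb2 ja1 ja2 with
      ⟨b1', b2', w1, w2, w3, w4, w5, w6, w7, w8, w9⟩ | ⟨a1', a2', w1, w2, w3, w4, w5, w6, w7, w8, w9⟩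
    · have hmem : (b1', b2', b1, b2) ∈ Λ :=
        ⟨w1, by simp only; linarith, by simp only; linarith, w2, z5, z6, z7, z8, w3.1, w3.2.1,
          kb1, kb2, w3.2.2.2, gb, w4, w5, jb1, jb2, Or.inl ⟨w6, w7, w8⟩⟩
      have hq' := hmin hmem
      simp only [mem_ofPred_eq] at hq'
      linarith
    · have hmem : (a1, a2, a1', a2') ∈ Λ :=
        ⟨z1, z2, z3, z4, w1, by simp only; linarith, by simp only; linarith, w2, ka1, ka2, w3.1,
          w3.2.1, ga, w3.2.2.2, ja1, ja2, w4, w5, Or.inl ⟨w6, w7, w8⟩⟩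
      have hq' := hmin hmem
      simp only [mem_ofPred_eq] at hq'
      linarith

/-- Two-sided increments of a function with a positive strict derivative. -/
lemma incr {h : ℝ → ℝ} {α : ℝ} (hh : HasStrictDerivAt h α 0) {ε : ℝ} (hε : 0 < ε) :
    ∃ δ > 0, ∀ s t, 0 ≤ s → s ≤ t → t ≤ δ →
      (α - ε) * (t - s) ≤ h t - h s ∧ h t - h s ≤ (α + ε) * (t - s) := by
  have h1 := hh.isLittleO.def hε
  rw [nhds_prod_eq] at h1
  obtain ⟨s1, hs1, s2, hs2, hsub⟩ := (Filter.eventually_prod_iff.1 h1)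
  obtain ⟨δ1, hδ1, hb1⟩ := Metric.eventually_nhds_iff.1 hs1
  obtain ⟨δ2, hδ2, hb2⟩ := Metric.eventually_nhds_iff.1 hs2
  refine ⟨min δ1 δ2 / 2, by positivity, ?_⟩
  intro s t hs hst htd
  have m1 : min δ1 δ2 ≤ δ1 := min_le_left _ _
  have m2 : min δ1 δ2 ≤ δ2 := min_le_right _ _
  have m0 : 0 < min δ1 δ2 := lt_min hδ1 hδ2
  have hA : s1 t := by
    apply hb1
    rw [Real.dist_eq, sub_zero, abs_of_nonneg (hs.trans hst)]
    linarith
  have hB : s2 s := by
    apply hb2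
    rw [Real.dist_eq, sub_zero, abs_of_nonneg hs]
    linarith
  have h2 := hsub hA hB
  simp only [Real.norm_eq_abs, ContinuousLinearMap.toSpanSingleton_apply, smul_eq_mul] at h2
  rw [abs_of_nonneg (show 0 ≤ t - s by linarith)] at h2
  have h3 := abs_le.1 h2
  constructor <;> nlinarith [h3.1, h3.2]

/-- The pattern, in the form of two functions leaving a left endpoint of a gap. -/
lemma key {K : Set ℝ} (hK : IsCompact K) (hne : K.Nonempty)
    (hp : ∀ x ∈ K, ∀ ε > 0, ∃ y ∈ K, y ≠ x ∧ |y - x| < ε) (ht : IsTotallyDisconnected K)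
    {τ : ℝ} (hτ : 1 < τ) (hT : Thick K τ) (hTL : ThickL K τ)
    {u v : ℝ → ℝ} (hu : Continuous u) (hv : Continuous v) (hu0 : u 0 = 0) (hv0 : v 0 = 0)
    {α β : ℝ} (hα : 0 < α) (hαβ : α < β) (hβ : β ≤ 2 * α)
    (hdu : HasStrictDerivAt u α 0) (hdv : HasStrictDerivAt v β 0) :
    ∃ g0 ∈ K, ∃ t, 0 < t ∧ g0 + u t ∈ K ∧ g0 + v t ∈ K := by
  obtain ⟨ε, hε, hε1, hε2⟩ : ∃ ε > 0, ε < (β - α) / 2 ∧ ε * (2 + τ) < (τ - 1) * α := by
    refine ⟨min ((β - α) / 4) ((τ - 1) * α / (2 * (2 + τ))), ?_, ?_, ?_⟩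
    · apply lt_min
      · linarith
      · have : 0 < (τ - 1) * α := mul_pos (by linarith) hα
        positivity
    · apply lt_of_le_of_lt (min_le_left _ _)
      linarith
    · have h1 : min ((β - α) / 4) ((τ - 1) * α / (2 * (2 + τ))) * (2 + τ) ≤
          ((τ - 1) * α / (2 * (2 + τ))) * (2 + τ) :=
        mul_le_mul_of_nonneg_right (min_le_right _ _) (by linarith)
      have h2 : ((τ - 1) * α / (2 * (2 + τ))) * (2 + τ) = (τ - 1) * α / 2 := by
        field_simp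
      have : 0 < (τ - 1) * α := mul_pos (by linarith) hα
      linarith
  have hεα : ε < α := by
    have h1 : ε * (2 + τ) < α * (2 + τ) := by nlinarith
    exact lt_of_mul_lt_mul_right h1 (by linarith)
  obtain ⟨δ1, hδ1, hi1⟩ := incr hdu hε
  obtain ⟨δ2, hδ2, hi2⟩ := incr hdv hε
  set T := min δ1 δ2 with hTdef
  have hTpos : 0 < T := lt_min hδ1 hδ2
  have hT1 : T ≤ δ1 := min_le_left _ _
  have hT2 : T ≤ δ2 := min_le_right _ _
  obtain ⟨g0, g, d, w, hg, hd, hgd, hlen, hsm, hscale⟩ := small_gap hK hne hp ht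
    (show 0 < (α - ε) * T from mul_pos (by linarith) hTpos)
  refine ⟨g0, hg.1, ?_⟩
  refine core hK hT hTL hg hd hgd hlen hsm (u := fun t => g0 + u t) (v := fun t => g0 + v t)
    (continuous_const.add hu) (continuous_const.add hv) (T := T) (p := α - ε) (P := α + ε)
    (q := β - ε) (Q := β + ε) hTpos.le (by simp [hu0]) (by simp [hv0]) ?_ ?_ (by linarith)
    (by linarith) (by linarith) (by linarith) ?_ ?_ ?_ ?_ ?_ (by linarith)
  · intro s t h1 h2 h3
    have := hi1 s t h1 h2 (h3.trans hT1)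
    constructor <;> linarith [this.1, this.2]
  · intro s t h1 h2 h3
    have := hi2 s t h1 h2 (h3.trans hT2)
    constructor <;> linarith [this.1, this.2]
  · nlinarith
  · nlinarith
  · nlinarith
  · have := (hi1 0 T le_rfl hTpos.le hT1).1
    rw [hu0] at this
    linarith
  · have := (hi2 0 T le_rfl hTpos.le hT2).1
    rw [hv0] at this
    have h2 : (α - ε) * T ≤ (β - ε) * T := mul_le_mul_of_nonneg_right (by linarith) hTpos.le
    linarith

/-- **Answer to Q1: yes.** -/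
theorem result (K : Set ℝ) (hK : IsCantor K) (hthick : 1 < thickness K) (f : ℝ → ℝ)
    (hf : ContDiff ℝ 1 f) (hf0 : f 0 = 0) (hf' : 0 < deriv f 0) :
    ∃ x t : ℝ, 0 < t ∧ ({x - t, x, x + f t} : Set ℝ) ⊆ K := by
  obtain ⟨hne, hc, hperf, htd⟩ := hK
  have hp : ∀ x ∈ K, ∀ ε > 0, ∃ y ∈ K, y ≠ x ∧ |y - x| < ε := by
    intro x hx ε hε
    have h1 := accPt_iff_nhds.1 (hperf.acc x hx) (Metric.ball x ε) (Metric.ball_mem_nhds x hε)
    obtain ⟨y, ⟨hy1, hy2⟩, hy3⟩ := h1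
    exact ⟨y, hy2, hy3, by simpa [Real.dist_eq] using hy1⟩
  have hdf : HasStrictDerivAt f (deriv f 0) 0 :=
    (hf.contDiffAt).hasStrictDerivAt (by norm_num)
  have hcf : Continuous f := hf.continuous
  have hT := thick_of_thickness hc
  have hTL := thickL_of_thickness hc
  rcases le_total (deriv f 0) 1 with hm | hm
  · obtain ⟨g0, hg0, t, ht, h1, h2⟩ := key hc hne hp htd hthick hT hTL
      (u := fun t => t) (v := fun t => t + f t) continuous_id (continuous_id.add hcf) rfl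
      (by simp [hf0]) (α := 1) (β := 1 + deriv f 0) one_pos (by linarith) (by linarith)
      (hasStrictDerivAt_id 0) ((hasStrictDerivAt_id 0).add hdf)
    refine ⟨g0 + t, t, ht, ?_⟩
    rintro y (rfl | rfl | rfl)
    · simpa using hg0
    · exact h1
    · simpa [add_assoc] using h2
  · -- reflect
    have hneg : IsCompact ((fun x : ℝ => -x) ⁻¹' K) :=
      (Homeomorph.neg ℝ).isCompact_preimage.2 hc
    have hG : ∀ l r, G ((fun x : ℝ => -x) ⁻¹' K) l r → G K (-r) (-l) := by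
      rintro l r ⟨h1, h2, h3, h4⟩
      refine ⟨h2, h1, by linarith, ?_⟩
      intro x hx
      rcases h4 (-x) (by simpa using hx) with h | h
      · right; linarith
      · left; linarith
    obtain ⟨g0, hg0, t, ht, h1, h2⟩ := key hneg (K := (fun x : ℝ => -x) ⁻¹' K)
      (by obtain ⟨x, hx⟩ := hne; exact ⟨-x, by simpa using hx⟩)
      (by
        intro x hx ε hε
        obtain ⟨y, hy, hyx, hyd⟩ := hp (-x) hx ε hε
        refine ⟨-y, by simpa using hy, fun h => hyx (by linarith), ?_⟩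
        rw [show -y - x = -(y - -x) by ring, abs_neg]
        exact hyd)
      (by
        intro t hts htp
        have h1 : ((fun x : ℝ => -x) '' t).Subsingleton :=
          htd _ (by rintro _ ⟨x, hx, rfl⟩; exact hts hx)
            (htp.image _ continuous_neg.continuousOn)
        intro x hx y hy
        have := h1 (mem_image_of_mem _ hx) (mem_image_of_mem _ hy)
        simpa using this)
      hthick
      (by
        intro l r l' r' hg hg' hrl hlen
        have := hTL _ _ _ _ (hG _ _ hg') (hG _ _ hg) (by linarith) (by linarith)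
        have e : -l - -r = r - l := by ring
        rw [e] at this
        linarith)
      (by
        intro l r l' r' hg hg' hrl hlen
        have := hT _ _ _ _ (hG _ _ hg') (hG _ _ hg) (by linarith) (by linarith)
        have e : -l' - -r' = r' - l' := by ring
        rw [e] at this
        linarith)
      (u := f) (v := fun t => f t + t) hcf (hcf.add continuous_id) hf0
      (by simp [hf0]) (α := deriv f 0) (β := deriv f 0 + 1) hf' (by linarith) (by linarith)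
      hdf (hdf.add (hasStrictDerivAt_id 0))
    refine ⟨-(g0 + f t), t, ht, ?_⟩
    rintro y (rfl | rfl | rfl)
    · have : -(g0 + (f t + t)) ∈ K := h2
      convert this using 1
      ring
    · exact h1
    · have : -g0 ∈ K := hg0
      convert this using 1
      ring

end Pool.Agent.Results.MP_4ff6b6_an.NonlinearPattern
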